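import Pool.Agent.helper96.Slope.Defs
import Pool.Agent.helper23.Slope.FL

/-!
# Slopes, module RA: rough numbers in arithmetic progressions
-/

namespace Pool.Agent.helper96.Slope

open Finset Pool.Agent.Lib.BrunHooley

lemma V_nonneg (r : ℕ) : 0 ≤ V r := by
  refine prod_nonneg fun p hp => ?_
  have hpp := (Nat.mem_primesLE.mp hp).2
  have h1 : (1 : ℝ) ≤ p := by exact_mod_cast hpp.one_le
  rw [sub_nonneg, div_le_one (by linarith)]
  exact h1

lemma V_le (r : ℕ) : V r ≤ 1 / Real.log (Z r) := by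
  have h1 := Pool.Agent.Lib.PrimeSums.prod_one_sub_le (Z r) (Z_pos r)
  have h2 : (2 : ℝ) ≤ Z r := by exact_mod_cast two_le_Z r
  refine h1.trans ?_
  refine one_div_le_one_div_of_le (Real.log_pos (by linarith)) ?_
  exact Real.log_le_log (by linarith) (by linarith)

open Classical in
/-- the weight of a prime for the progression mod `a`. -/
noncomputable def raω (a p : ℕ) : ℝ := if p ∣ a then 0 else 1

lemma ra_core (b r x H a : ℕ) (c : ℤ) (ha : 0 < a) (hc : IsCoprime c (a : ℤ)) :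
    (1 - (1 / 4 : ℝ) ^ b) * (H / a) * ∏ p ∈ Nat.primesLE (Z r), (1 - raω a p / p)
        - (Z r : ℝ) ^ (42 * (b + 1)) ≤ ∑ n ∈ Ioc x (x + H), rg r n * cg a c n ∧
    ∑ n ∈ Ioc x (x + H), rg r n * cg a c n ≤
      (1 + (1 / 4 : ℝ) ^ b) * (H / a) * ∏ p ∈ Nat.primesLE (Z r), (1 - raω a p / p)
        + (Z r : ℝ) ^ (42 * (b + 1)) := by
  classical
  -- a natural representative of the class
  set v : ℕ := (c % a).toNat with hv
  have ha' : (0 : ℤ) < a := by exact_mod_cast ha
  have hv1 : ((v : ℕ) : ℤ) = c % a := by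
    rw [hv, Int.toNat_of_nonneg (Int.emod_nonneg c ha'.ne')]
  have hcv : ∀ n : ℕ, (n ≡ v [MOD a]) ↔ ((n : ℤ) ≡ c [ZMOD a]) := by
    intro n
    rw [← Int.natCast_modEq_iff, hv1]
    constructor
    · intro h; exact h.trans (Int.mod_modEq c a)
    · intro h; exact h.trans (Int.mod_modEq c a).symm
  set A : Finset ℕ := {n ∈ Ioc x (x + H) | n ≡ v [MOD a]} with hA
  set hh : ℕ → ℕ → ℝ := fun p n => if p ∣ a then 0 else if p ∣ n then 1 else 0 with hhdef
  have key := fund_abstract b r A (fun _ => (1 : ℝ)) hh ((H : ℝ) / a) (raω a) (by simp)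
    (by intro p n _; simp only [hhdef]; split_ifs <;> norm_num)
    (by intro p n _; simp only [hhdef]; split_ifs <;> norm_num) (by positivity)
    (by intro p; unfold raω; split_ifs <;> norm_num)
    (by intro p; unfold raω; split_ifs <;> norm_num) ?_
  · have e : ∑ n ∈ A, (fun _ => (1 : ℝ)) n * ∏ p ∈ Nat.primesLE (Z r), (1 - hh p n)
        = ∑ n ∈ Ioc x (x + H), rg r n * cg a c n := by
      rw [hA, sum_filter]
      refine sum_congr rfl fun n _ => ?_
      by_cases hn : n ≡ v [MOD a]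
      · have hn' := (hcv n).mp hn
        rw [if_pos hn, cg, if_pos hn', one_mul, mul_one, rg]
        split_ifs with hr
        · refine prod_eq_one fun p hp => ?_
          simp only [hhdef]
          rw [if_neg (hr p hp)]
          simp
        · unfold Rough at hr
          push Not at hr
          obtain ⟨p, hp, hpn⟩ := hr
          refine prod_eq_zero hp ?_
          have hpa : ¬ p ∣ a := by
            intro hpa
            have hpp := (Nat.mem_primesLE.mp hp).2
            have h1 : (p : ℤ) ∣ (a : ℤ) := by exact_mod_cast hpa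
            have h2 : (p : ℤ) ∣ (n : ℤ) := by exact_mod_cast hpn
            have h3 : (p : ℤ) ∣ c := by
              have h4 : (a : ℤ) ∣ c - n := Int.ModEq.dvd hn'
              have h5 := h1.trans h4
              have := dvd_add h5 h2
              simpa using this
            have h6 := hc.isUnit_of_dvd' h3 h1
            have h7 := Int.isUnit_iff_natAbs_eq.mp h6
            simp only [Int.natAbs_natCast] at h7
            exact hpp.one_lt.ne' h7
          simp only [hhdef]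
          rw [if_neg hpa, if_pos hpn]
          simp
      · have hn' : ¬ ((n : ℤ) ≡ c [ZMOD a]) := fun h => hn ((hcv n).mpr h)
        rw [if_neg hn, cg, if_neg hn', mul_zero]
    rw [e] at key
    exact key
  · intro D hD
    have hDp : ∀ p ∈ D, p.Prime := fun p hp => (Nat.mem_primesLE.mp (hD hp)).2
    by_cases hda : ∃ p ∈ D, p ∣ a
    · obtain ⟨p, hp, hpa⟩ := hda
      have e1 : ∏ q ∈ D, (raω a q / q) = 0 := prod_eq_zero hp (by simp [raω, hpa])
      have e2 : ∏ q ∈ D, raω a q = 0 := prod_eq_zero hp (by simp [raω, hpa])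
      have e3 : ∀ n ∈ A, (fun _ => (1 : ℝ)) n * ∏ q ∈ D, hh q n = 0 := by
        intro n _
        rw [prod_eq_zero hp (by simp [hhdef, hpa]), mul_zero]
      rw [e1, e2, sum_eq_zero e3]
      simp
    · push Not at hda
      have h := card_residues_approx x H (fun _ => {0}) D hDp
        (fun p hp c hc => by rw [mem_singleton.mp hc]; exact (hDp p hp).pos) a v ha
        (fun p hp => ((Nat.Prime.coprime_iff_not_dvd (hDp p hp)).mpr (hda p hp)).symm)
      have e1 : ∏ q ∈ D, (raω a q / q) = ∏ q ∈ D, ((#({0} : Finset ℕ) : ℝ) / q) :=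
        prod_congr rfl fun q hq => by simp [raω, hda q hq]
      have e2 : ∏ q ∈ D, raω a q = ∏ _q ∈ D, (#({0} : Finset ℕ) : ℝ) :=
        prod_congr rfl fun q hq => by simp [raω, hda q hq]
      have e3 : ∑ n ∈ A, (fun _ => (1 : ℝ)) n * ∏ q ∈ D, hh q n
          = (#{n ∈ Ioc x (x + H) | n ≡ v [MOD a] ∧ ∀ p ∈ D, n % p ∈ ({0} : Finset ℕ)} : ℝ) := by
        rw [hA, sum_filter, card_filter]
        push_cast
        refine sum_congr rfl fun n _ => ?_
        by_cases hn : n ≡ v [MOD a]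
        · rw [if_pos hn, one_mul]
          split_ifs with hr
          · refine prod_eq_one fun p hp => ?_
            have := hr.2 p hp
            rw [mem_singleton] at this
            simp only [hhdef]
            rw [if_neg (hda p hp), if_pos (Nat.dvd_of_mod_eq_zero this)]
          · have hr' : ¬ ∀ p ∈ D, n % p ∈ ({0} : Finset ℕ) := fun h' => hr ⟨hn, h'⟩
            push Not at hr'
            obtain ⟨p, hp, hpn⟩ := hr'
            refine prod_eq_zero hp ?_
            simp only [hhdef]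
            rw [if_neg (hda p hp), if_neg]
            intro h'
            exact hpn (by rw [mem_singleton]; exact Nat.mod_eq_zero_of_dvd h')
        · rw [if_neg hn, if_neg (fun h' => hn h'.1)]
      rw [e1, e2, e3]
      exact h

lemma ra_prod (r a : ℕ) (ha : 0 < a) (har : a ≤ Z r) :
    (Nat.totient a : ℝ) * ((1 / a : ℝ) * ∏ p ∈ Nat.primesLE (Z r), (1 - raω a p / p)) = V r := by
  classical
  have h1 : (Nat.totient a : ℝ) = a * ∏ p ∈ a.primeFactors, (1 - 1 / (p : ℝ)) := by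
    have := Nat.totient_eq_mul_prod_factors a
    have h2 : ((Nat.totient a : ℚ) : ℝ) = ((a * ∏ p ∈ a.primeFactors, (1 - (p : ℚ)⁻¹) : ℚ) : ℝ) := by
      rw [this]
    push_cast at h2
    rw [h2]
    simp [one_div]
  have hsub : a.primeFactors = {p ∈ Nat.primesLE (Z r) | p ∣ a} := by
    ext p
    simp only [Nat.mem_primeFactors, mem_filter, Nat.mem_primesLE]
    constructor
    · rintro ⟨h, h', _⟩
      exact ⟨⟨(Nat.le_of_dvd ha h').trans har, h⟩, h'⟩
    · rintro ⟨⟨_, h⟩, h'⟩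
      exact ⟨h, h', ha.ne'⟩
  have e1 : ∏ p ∈ Nat.primesLE (Z r), (1 - raω a p / p)
      = ∏ p ∈ Nat.primesLE (Z r) with ¬ p ∣ a, (1 - 1 / (p : ℝ)) := by
    rw [prod_filter]
    refine prod_congr rfl fun p _ => ?_
    by_cases hp : p ∣ a
    · simp [raω, hp]
    · simp [raω, hp]
  rw [h1, e1, V, hsub, ← prod_filter_mul_prod_filter_not (Nat.primesLE (Z r)) (fun p => p ∣ a)]
  have : (a : ℝ) ≠ 0 := by exact_mod_cast ha.ne'
  field_simp

lemma ra_ap (b r x H a : ℕ) (c : ℤ) (ha : 0 < a) (har : a ≤ Z r) (hc : IsCoprime c (a : ℤ)) :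
    (1 - (1 / 4 : ℝ) ^ b) * H * V r - 2 * a * (Z r : ℝ) ^ (42 * (b + 1))
      ≤ (Nat.totient a : ℝ) * ∑ n ∈ Ioc x (x + H), rg r n * cg a c n := by
  have h1 := (ra_core b r x H a c ha hc).1
  have h2 := mul_le_mul_of_nonneg_left h1 (Nat.cast_nonneg (Nat.totient a) : (0 : ℝ) ≤ _)
  refine le_trans ?_ h2
  have h3 := ra_prod r a ha har
  have h4 : (Nat.totient a : ℝ) ≤ a := by exact_mod_cast Nat.totient_le a
  have h5 : 0 ≤ (Z r : ℝ) ^ (42 * (b + 1)) := by positivity
  have h6 : (0 : ℝ) ≤ a := Nat.cast_nonneg a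
  have e : (Nat.totient a : ℝ) * ((1 - (1 / 4 : ℝ) ^ b) * (H / a)
      * ∏ p ∈ Nat.primesLE (Z r), (1 - raω a p / p) - (Z r : ℝ) ^ (42 * (b + 1)))
      = (1 - (1 / 4 : ℝ) ^ b) * H * V r - (Nat.totient a : ℝ) * (Z r : ℝ) ^ (42 * (b + 1)) := by
    rw [← h3]; ring
  rw [e]
  have h7 := mul_le_mul_of_nonneg_right h4 h5
  have h8 := mul_nonneg h6 h5
  linarith

theorem rough_ap : ∃ C : ℕ, ∀ (b r x H a : ℕ) (c : ℤ), 0 < a → a ≤ Z r → IsCoprime c (a : ℤ) →
    (1 - (1 / 4 : ℝ) ^ b) * H * V r - 2 * a * (Z r : ℝ) ^ (C * (b + 1))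
      ≤ (Nat.totient a : ℝ) * ∑ n ∈ Ioc x (x + H), rg r n * cg a c n :=
  ⟨42, ra_ap⟩

lemma ra_all (b r x H : ℕ) :
    ∑ n ∈ Ioc x (x + H), rg r n ≤ (1 + (1 / 4 : ℝ) ^ b) * H * V r
      + (Z r : ℝ) ^ (42 * (b + 1)) := by
  have h1 := (ra_core b r x H 1 0 one_pos (by simpa using isCoprime_one_right)).2
  have e : ∑ n ∈ Ioc x (x + H), rg r n * cg 1 0 n = ∑ n ∈ Ioc x (x + H), rg r n := by
    refine sum_congr rfl fun n _ => ?_
    rw [cg, if_pos (by simpa using Int.modEq_one), mul_one]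
  have h3 := ra_prod r 1 one_pos (Z_pos r)
  rw [e] at h1
  refine h1.trans (le_of_eq ?_)
  rw [← h3]
  simp

theorem rough_all : ∃ C : ℕ, ∀ (b r x H : ℕ),
    ∑ n ∈ Ioc x (x + H), rg r n ≤ (1 + (1 / 4 : ℝ) ^ b) * H * V r + (Z r : ℝ) ^ (C * (b + 1)) :=
  ⟨42, ra_all⟩

theorem rough_short : ∃ C : ℝ, ∃ E : ℕ, 0 < C ∧ ∀ r x H : ℕ,
    ∑ n ∈ Ioc x (x + H), rg r n ≤ C * H / Real.log (Z r) + (Z r : ℝ) ^ E := by
  refine ⟨2, 42, by norm_num, ?_⟩
  intro r x H
  have h1 := ra_all 0 r x H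
  have h2 := V_le r
  have h3 : (2 : ℝ) * H * V r ≤ 2 * H * (1 / Real.log (Z r)) :=
    mul_le_mul_of_nonneg_left h2 (by positivity)
  have e : (2 : ℝ) * H * (1 / Real.log (Z r)) = 2 * H / Real.log (Z r) := by ring
  rw [e] at h3
  norm_num at h1
  linarith

end Pool.Agent.helper96.Slope
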